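import Pool.Agent.H557R2.FptDec

/-!
# Fixed-parameter tractability is inherited along fpt-reductions
-/

namespace Pool.Agent.H527R3

open Turing Pool.Agent.NPC Pool.Agent.H642R2.TMSim Pool.Agent.H557R2.Fpt

/-- From programs with raw one-bit output to machines. -/
theorem fptDecidable_of_raw {L : PProblem} {d : List Bool × ℕ → Bool}
    (h : FT (fun b : Bool => [b]) d) (hd : ∀ y, y ∈ L ↔ d y = true) : FptDecidable L := by
  obtain ⟨c, B, ⟨f, p, hf, hB⟩, h⟩ := h
  refine ⟨{ tm := (c.map (Fin.ofNat (c.bd + 1))).toTM
            inputAlphabet := Equiv.refl Bool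
            outputAlphabet := Equiv.refl Bool }, fun k => f k + 1, p + 1, d, ?_, hd, ?_⟩
  · exact comp_add hf (Computable.const 1)
  · intro x k
    obtain ⟨t, ht, hr⟩ := h x k
    have h1 := hr.restrict (n := c.bd) (by omega)
    have e : ∀ l : List Bool, (fun i : Fin (c.bd + 1) => (inp l : ℕ → List Bool) i) = inp l := by
      intro l
      funext i
      by_cases hi : i = 0
      · subst hi; simp [inp]
      · have : (i : ℕ) ≠ 0 := fun h => hi (Fin.ext h)
        simp [inp, hi, this]
    have h2 : Nonempty (TM2OutputsInTime (c.map (Fin.ofNat (c.bd + 1))).toTM (pcode (x, k))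
        (some [d (x, k)]) (t + 1)) := by
      refine toTM_outputs ?_
      have h3 := h1
      rw [e, e] at h3
      exact h3
    obtain ⟨h2⟩ := h2
    refine ⟨outputs_conv (List.map_id _).symm (List.map_id _).symm ?_ h2⟩
    have h3 := hB x k
    simp only [Polynomial.eval_add, Polynomial.eval_one]
    generalize p.eval x.length = P at *
    have : (f k + 1) * (P + 1) = f k * P + f k + P + 1 := by ring
    omega

/-- The length of an instance is at most the length of its code. -/
theorem length_le_pcode (y : List Bool × ℕ) : y.1.length ≤ (pcode y).length := by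
  have key : ∀ l : List Bool, l.length ≤ (T.ofList (l.map toT)).enc.length := by
    intro l
    induction l with
    | nil => simp
    | cons a l ih =>
      simp only [List.map_cons, T.ofList, T.enc, List.length_cons, List.length_append]
      omega
  have h : (pcode y).length = 1 + (T.ofList (y.1.map toT)).enc.length +
      (T.ofList ((List.replicate y.2 ()).map toT)).enc.length := by
    unfold pcode bits
    change (T.node _ _).enc.length = _
    simp only [T.enc, List.length_cons, List.length_append]
    change _ + 1 = _
    ring_nf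
    rfl
  have := key y.1
  omega

/-- Fixed-parameter tractability is inherited along fpt-reductions. -/
theorem fptDecidable_of_reduces {L L' : PProblem} (hR : FptReduces L L')
    (hL : FptDecidable L') : FptDecidable L := by
  obtain ⟨R, hR, ⟨g, hg, hgb⟩, hiff⟩ := hR
  obtain ⟨M, f, p, d, hf, hd, hM⟩ := hL
  have hRT := hR.toFT
  have hl := hRT.length
  obtain ⟨c, B, hB, h⟩ := hRT
  obtain ⟨prog, E, hE⟩ := sim M
  obtain ⟨f', hf', hmono, hle⟩ := exists_mono hf
  refine fptDecidable_of_raw (d := fun y => d (R y)) ?_ (fun y => ?_)
  · refine ⟨Cmd.seq c prog, fun x k => B x k + E * ((pcode (R (x, k))).length +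
      f' (g k) * p.eval (pcode (R (x, k))).length + 1), ?_, fun x k => ?_⟩
    · exact hB.add ((FB.const E).mul ((hl.add ((FB.par (hf'.comp hg)).mul (hl.eval p))).add
        (FB.const 1)))
    · have h0 := hM (R (x, k)).1 (R (x, k)).2
      refine (h x k).seq ((hE _ _ _ h0).mono ?_)
      refine Nat.mul_le_mul_left _ ?_
      have h1 : f (R (x, k)).2 ≤ f' (g k) := (hle _).trans (hmono (hgb x k))
      have h2 := Nat.mul_le_mul h1 (eval_mono p (length_le_pcode (R (x, k))))
      simp only [Prod.mk.eta] at h2 ⊢
      omega
  · have := hiff y.1 y.2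
    simp only [Prod.mk.eta] at this
    rw [this, hd]

end Pool.Agent.H527R3
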